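import Mathlib
import Pool.Agent.Helper29.PpcInjB

/-!
# The Bloom-Walker conjecture on additive energy and Poissonian pair correlations

If `a₁, a₂, …` are distinct integers (of any sign, in any order) and
`E(a₁, …, a_N) = O(N³ / (log N)^C)` for some `C > 1`, then `({a_n α})` has Poissonian pair
correlations for almost all `α`, with a limit that is uniform in `s ∈ [0, S]` for every `S`.
-/

set_option autoImplicit false

open Filter Topology Asymptotics MeasureTheory

namespace Pool.Agent.Results.MP_ab562c_nt.EnergyThreshold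

/-- The distance of a real number to the nearest integer. -/
noncomputable def distInt (x : ℝ) : ℝ := |x - (round x : ℝ)|

/-- `(1/N) #{1 ≤ k ≠ l ≤ N : ‖x_k - x_l‖ < s/N}`. -/
noncomputable def pairCorr (x : ℕ → ℝ) (N : ℕ) (s : ℝ) : ℝ :=
  1 / (N : ℝ) * (((Finset.Icc 1 N ×ˢ Finset.Icc 1 N).filter
    (fun p : ℕ × ℕ => p.1 ≠ p.2 ∧ distInt (x p.1 - x p.2) < s / (N : ℝ))).card : ℝ)

/-- Poissonian pair correlations of the sequence `x₁, x₂, …`. -/
def HasPPC (x : ℕ → ℝ) : Prop :=
  ∀ s : ℝ, 0 < s → Tendsto (fun N : ℕ => pairCorr x N s) atTop (𝓝 (2 * s))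

/-- The additive energy of `a₁, …, a_N`: the number of `(i, j, k, l) ∈ {1, …, N}⁴` with
`a_i + a_j = a_k + a_l`. -/
def energy (a : ℕ → ℤ) (N : ℕ) : ℕ :=
  (((Finset.Icc 1 N ×ˢ Finset.Icc 1 N) ×ˢ (Finset.Icc 1 N ×ˢ Finset.Icc 1 N)).filter
    (fun p : (ℕ × ℕ) × (ℕ × ℕ) => a p.1.1 + a p.1.2 = a p.2.1 + a p.2.2)).card

private lemma ppcEns_energy (a : ℕ → ℤ) (N : ℕ) :
    energy a N = Helper29.PPC.ENz (fun n => a (n + 1)) N := by
  unfold energy Helper29.PPC.ENz
  symm
  refine Finset.card_bij (fun p _ => ((p.1.1 + 1, p.1.2 + 1), (p.2.1 + 1, p.2.2 + 1))) ?_ ?_ ?_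
  · intro p hp
    simp only [Finset.mem_filter, Finset.mem_product, Finset.mem_range, Finset.mem_Icc] at hp ⊢
    refine ⟨⟨⟨?_, ?_⟩, ⟨?_, ?_⟩⟩, hp.2⟩ <;> omega
  · intro p _ q _ h
    simp only [Prod.mk.injEq, Nat.add_right_cancel_iff] at h
    exact Prod.ext (Prod.ext h.1.1 h.1.2) (Prod.ext h.2.1 h.2.2)
  · intro p hp
    simp only [Finset.mem_filter, Finset.mem_product, Finset.mem_Icc] at hp
    obtain ⟨⟨⟨h1, h2⟩, ⟨h3, h4⟩⟩, h5⟩ := hp
    refine ⟨((p.1.1 - 1, p.1.2 - 1), (p.2.1 - 1, p.2.2 - 1)), ?_, ?_⟩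
    · simp only [Finset.mem_filter, Finset.mem_product, Finset.mem_range]
      refine ⟨⟨⟨?_, ?_⟩, ⟨?_, ?_⟩⟩, ?_⟩
      · omega
      · omega
      · omega
      · omega
      · rw [Nat.sub_add_cancel h1.1, Nat.sub_add_cancel h2.1, Nat.sub_add_cancel h3.1,
          Nat.sub_add_cancel h4.1]
        exact h5
    · refine Prod.ext (Prod.ext ?_ ?_) (Prod.ext ?_ ?_) <;> simp only <;> omega

private lemma ppcEns_pairCorr (a : ℕ → ℤ) (α : ℝ) (N : ℕ) (s : ℝ) :
    pairCorr (fun n => Int.fract ((a n : ℝ) * α)) N s =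
      Helper29.PPC.cnt (fun n => a (n + 1)) α N (s / N) / N := by
  classical
  unfold pairCorr Helper29.PPC.cnt distInt
  rw [one_div, inv_mul_eq_div]
  congr 2
  symm
  refine Finset.card_bij (fun p _ => (p.1 + 1, p.2 + 1)) ?_ ?_ ?_
  · intro p hp
    simp only [Finset.mem_filter, Finset.mem_product, Finset.mem_range, Finset.mem_Icc] at hp ⊢
    refine ⟨⟨?_, ?_⟩, ?_, ?_⟩
    · omega
    · omega
    · omega
    · exact (Helper29.PPC.cond_iff _ _ _).2 hp.2.2
  · intro p _ q _ h
    simp only [Prod.mk.injEq, Nat.add_right_cancel_iff] at h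
    exact Prod.ext h.1 h.2
  · intro p hp
    simp only [Finset.mem_filter, Finset.mem_product, Finset.mem_Icc] at hp
    obtain ⟨⟨h1, h2⟩, h3, h4⟩ := hp
    refine ⟨(p.1 - 1, p.2 - 1), ?_, ?_⟩
    · simp only [Finset.mem_filter, Finset.mem_product, Finset.mem_range]
      refine ⟨⟨?_, ?_⟩, ?_, ?_⟩
      · omega
      · omega
      · omega
      · rw [Nat.sub_add_cancel h1.1, Nat.sub_add_cancel h2.1]
        exact (Helper29.PPC.cond_iff _ _ _).1 h4
    · refine Prod.ext ?_ ?_ <;> simp only <;> omega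

/-- Monotone functions converging pointwise to `2s` converge uniformly on `[0, S]`. -/
private lemma ppcEns_uniform (F : ℕ → ℝ → ℝ) (hF : ∀ N, Monotone (F N))
    (h0 : ∀ N, F N 0 = 0)
    (h : ∀ s : ℝ, 0 < s → Tendsto (fun N : ℕ => F N s) atTop (𝓝 (2 * s))) (S : ℝ) :
    TendstoUniformlyOn F (fun s => 2 * s) atTop (Set.Icc 0 S) := by
  rw [Metric.tendstoUniformlyOn_iff]
  intro ε hε
  by_cases hS : 0 < S
  swap
  · refine Filter.Eventually.of_forall fun N s hs => ?_
    have hs0 : s = 0 := le_antisymm (hs.2.trans (not_lt.1 hS)) hs.1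
    rw [hs0, h0, mul_zero, dist_self]
    exact hε
  obtain ⟨m, hm⟩ := exists_nat_gt (4 * S / ε)
  have hm0 : (0 : ℝ) < m := lt_trans (by positivity) hm
  have hstep : 2 * (S / m) < ε / 2 := by
    rw [div_lt_iff₀ hε] at hm
    rw [mul_div_assoc', div_lt_iff₀ hm0]
    linarith
  have hev : ∀ᶠ N in atTop, ∀ j ∈ Finset.range (m + 1),
      |F N ((j : ℝ) * (S / m)) - 2 * ((j : ℝ) * (S / m))| < ε / 2 := by
    rw [Filter.eventually_all_finset]
    intro j _
    rcases Nat.eq_zero_or_pos j with hj | hj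
    · subst hj
      refine Filter.Eventually.of_forall fun N => ?_
      rw [Nat.cast_zero, zero_mul, h0, mul_zero, sub_zero, abs_zero]
      positivity
    · have hj0 : (0 : ℝ) < j := by exact_mod_cast hj
      have h1 := h ((j : ℝ) * (S / m)) (by positivity)
      have h2 := (Metric.tendsto_nhds.1 h1) (ε / 2) (by positivity)
      filter_upwards [h2] with N hN
      rw [Real.dist_eq] at hN
      exact hN
  filter_upwards [hev] with N hN
  intro s hs
  have hd0 : 0 < S / m := by positivity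
  -- the grid point below `s`
  set j := ⌊s / (S / m)⌋₊ with hj
  have hj1 : (j : ℝ) * (S / m) ≤ s := by
    rw [← le_div_iff₀ hd0]
    exact Nat.floor_le (div_nonneg hs.1 hd0.le)
  have hj2 : s < ((j : ℝ) + 1) * (S / m) := by
    rw [← div_lt_iff₀ hd0]
    exact Nat.lt_floor_add_one _
  have hjm : j ≤ m := by
    have h1 : (j : ℝ) * (S / m) ≤ m * (S / m) := by
      refine hj1.trans (hs.2.trans (le_of_eq ?_))
      field_simp
    exact_mod_cast le_of_mul_le_mul_right h1 hd0
  have a1 := hN j (Finset.mem_range.2 (by omega))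
  rw [abs_lt] at a1
  have b1 : F N ((j : ℝ) * (S / m)) ≤ F N s := hF N hj1
  rw [Real.dist_eq, abs_lt]
  constructor
  · -- upper bound for `F N s`
    rcases Nat.lt_or_ge j m with hlt | hge
    · have a2 := hN (j + 1) (Finset.mem_range.2 (by omega))
      rw [abs_lt] at a2
      push_cast at a2
      have b2 : F N s ≤ F N (((j : ℝ) + 1) * (S / m)) := hF N hj2.le
      nlinarith [a2.1, a2.2]
    · have hjm' : j = m := le_antisymm hjm hge
      have e1 : (j : ℝ) * (S / m) = S := by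
        rw [hjm']; field_simp
      have e2 : s = S := le_antisymm hs.2 (by rw [← e1]; exact hj1)
      rw [e1] at a1
      rw [e2]
      linarith [a1.1, a1.2]
  · nlinarith [a1.1, a1.2]

/-- **The Bloom-Walker conjecture**, for all sequences of distinct integers: additive energy
`O(N³ / (log N)^C)` with `C > 1` implies Poissonian pair correlations of `({a_n α})` for almost all
`α`; the convergence is uniform for `s` in bounded intervals. -/
theorem result (C : ℝ) (hC : 1 < C) (a : ℕ → ℤ) (ha : Set.InjOn a (Set.Ici 1))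
    (hE : (fun N : ℕ => (energy a N : ℝ)) =O[atTop]
      (fun N : ℕ => (N : ℝ) ^ 3 / Real.log (N : ℝ) ^ C)) :
    ∀ᵐ α ∂(volume : Measure ℝ),
      HasPPC (fun n => Int.fract ((a n : ℝ) * α)) ∧
      ∀ S : ℝ, TendstoUniformlyOn
        (fun (N : ℕ) (s : ℝ) => pairCorr (fun n => Int.fract ((a n : ℝ) * α)) N s)
        (fun s => 2 * s) atTop (Set.Icc 0 S) := by
  have ha' : Function.Injective (fun n : ℕ => a (n + 1)) := by
    intro i j hij
    have h1 : i + 1 = j + 1 := ha (Set.mem_Ici.2 (by omega)) (Set.mem_Ici.2 (by omega)) hij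
    omega
  have hE' : (fun N : ℕ => (Helper29.PPC.ENz (fun n => a (n + 1)) N : ℝ)) =O[atTop]
      (fun N : ℕ => (N : ℝ) ^ 3 / Real.log (N : ℝ) ^ C) := by
    refine hE.congr_left fun N => ?_
    rw [ppcEns_energy]
  filter_upwards [Helper29.PPC.mainZ C hC (fun n => a (n + 1)) ha' hE'] with α hα
  have h1 : HasPPC (fun n => Int.fract ((a n : ℝ) * α)) := by
    intro s hs
    refine (hα s hs).congr fun N => ?_
    rw [ppcEns_pairCorr]
  refine ⟨h1, fun S => ?_⟩
  refine ppcEns_uniform _ ?_ ?_ h1 S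
  · intro N s t hst
    simp only [ppcEns_pairCorr]
    have h2 := Helper29.PPC.cnt_mono_right (fun n => a (n + 1)) α N
      (show s / (N : ℝ) ≤ t / (N : ℝ) by gcongr)
    gcongr
  · intro N
    unfold pairCorr
    have h2 : (Finset.Icc 1 N ×ˢ Finset.Icc 1 N).filter (fun p : ℕ × ℕ => p.1 ≠ p.2 ∧
        distInt (Int.fract ((a p.1 : ℝ) * α) - Int.fract ((a p.2 : ℝ) * α)) < 0 / (N : ℝ)) = ∅ := by
      rw [Finset.filter_eq_empty_iff]
      rintro p _ ⟨_, h3⟩
      rw [zero_div] at h3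
      exact absurd h3 (not_lt.2 (abs_nonneg _))
    rw [h2]
    simp

end Pool.Agent.Results.MP_ab562c_nt.EnergyThreshold
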